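import Pool.Agent.H5.FR2.Stmts

/-!
# URB, module LOR: the rank of a block triangular matrix
-/

set_option autoImplicit false

namespace Pool.Agent.H5.FR2

open Finset Pool.Agent.H5.FR Pool.Agent.H80

/-- entries below the diagonal vanish -/
private theorem lor_app_eq_zero {d n : ℕ} {X Y : Fin d → Type}
    (A : ∀ i, Fin n → Matrix (X i) (Y i) ℂ) (r : ∀ i, X i → ℕ) (c : ∀ i, Y i → ℕ)
    (h : ∀ i a p q, c i q < r i p → A i a p q = 0) (f : MvPolynomial (Fin d × Fin n) ℂ)
    (p : ∀ i, X i) (q : ∀ i, Y i) (hpq : ¬ (fun i => r i (p i)) ≤ fun i => c i (q i)) :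
    app A f p q = 0 := by
  rw [Pi.le_def] at hpq
  push Not at hpq
  obtain ⟨i, hi⟩ := hpq
  unfold app
  refine Finset.sum_eq_zero fun a _ => ?_
  rw [Finset.prod_eq_zero (Finset.mem_univ i) (h i (a i) (p i) (q i) hi), mul_zero]

/-- the span of the columns with labels in `S` -/
private noncomputable def lorV {P Q L : Type} (M : Matrix P Q ℂ) (C : Q → L) (S : Finset L) :
    Submodule ℂ (P → ℂ) := Submodule.span ℂ {v | ∃ q, C q ∈ S ∧ v = fun p => M p q}

/-- the general lemma -/
private theorem lor_gen {P Q L : Type} [Fintype P] [Fintype Q] [LinearOrder L]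
    (M : Matrix P Q ℂ) (R : P → L) (C : Q → L) (h : ∀ p q, C q < R p → M p q = 0)
    (P' Q' : L → Type) [∀ J, Fintype (P' J)] [∀ J, Fintype (Q' J)]
    (α : ∀ J, P' J → P) (β : ∀ J, Q' J → Q) (hα : ∀ J p, R (α J p) = J)
    (hβ : ∀ J q, C (β J q) = J) (S : Finset L) :
    ∑ J ∈ S, (M.submatrix (α J) (β J)).rank ≤ Module.finrank ℂ (lorV M C S) := by
  classical
  induction S using Finset.induction_on_max with
  | empty => simp
  | insert a S hS ih =>
    have haS : a ∉ S := fun h' => lt_irrefl a (hS a h')
    rw [Finset.sum_insert haS]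
    -- restriction to the rows of block `a`
    let π : (P → ℂ) →ₗ[ℂ] (P' a → ℂ) := LinearMap.funLeft ℂ ℂ (α a)
    let V := lorV M C (insert a S)
    have hsub : lorV M C S ≤ V := by
      refine Submodule.span_mono ?_
      rintro v ⟨q, hq, rfl⟩
      exact ⟨q, Finset.mem_insert_of_mem hq, rfl⟩
    have hker : lorV M C S ≤ LinearMap.ker π := by
      refine Submodule.span_le.2 ?_
      rintro v ⟨q, hq, rfl⟩
      rw [SetLike.mem_coe, LinearMap.mem_ker]
      funext p
      rw [LinearMap.funLeft_apply]
      exact h _ _ (by rw [hα]; exact hS _ hq)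
    -- rank-nullity for the restriction of `π` to `V`
    have hrn := LinearMap.finrank_range_add_finrank_ker (π.domRestrict V)
    have h1 : (M.submatrix (α a) (β a)).rank ≤ Module.finrank ℂ
        (LinearMap.range (π.domRestrict V)) := by
      rw [Matrix.rank_eq_finrank_span_cols]
      refine Submodule.finrank_mono (Submodule.span_le.2 ?_)
      rintro _ ⟨q, rfl⟩
      refine ⟨⟨fun p => M p (β a q), Submodule.subset_span ⟨β a q, ?_, rfl⟩⟩, ?_⟩
      · rw [hβ]
        exact Finset.mem_insert_self _ _
      · rfl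
    have h2 : Module.finrank ℂ (lorV M C S) ≤ Module.finrank ℂ
        (LinearMap.ker (π.domRestrict V)) := by
      refine LinearMap.finrank_le_finrank_of_injective
        (f := (Submodule.inclusion hsub).codRestrict (LinearMap.ker (π.domRestrict V)) ?_) ?_
      · rintro ⟨v, hv⟩
        rw [LinearMap.mem_ker]
        exact LinearMap.mem_ker.1 (hker hv)
      · intro u v huv
        have := congrArg (fun w => ((w : LinearMap.ker (π.domRestrict V)) : V)) huv
        exact Submodule.inclusion_injective hsub this
    have h3 : Module.finrank ℂ V = Module.finrank ℂ (lorV M C (insert a S)) := rfl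
    omega

/-- The module LOR. -/
theorem lor_thm : LORStmt := by
  classical
  intro d n X Y _ _ _ _ A r c hA f S
  have h0 : ∀ J : Fin d → ℕ, (app (blk A r c J) f) = (app A f).submatrix
      (fun (p : ∀ i, {p // r i p = J i}) i => (p i).1)
      (fun (q : ∀ i, {q // c i q = J i}) i => (q i).1) := fun J => rfl
  have h1 := lor_gen (L := Lex (Fin d → ℕ)) (app A f) (fun p => toLex fun i => r i (p i))
    (fun q => toLex fun i => c i (q i)) ?_
    (fun J => ∀ i, {p // r i p = ofLex J i}) (fun J => ∀ i, {q // c i q = ofLex J i})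
    (fun J p i => (p i).1) (fun J q i => (q i).1) ?_ ?_ (S.map toLex.toEmbedding)
  · rw [Finset.sum_map] at h1
    have h2 : ∑ J ∈ S, (app (blk A r c J) f).rank ≤ Module.finrank ℂ
        (lorV (app A f) (fun q => toLex fun i => c i (q i)) (S.map toLex.toEmbedding)) := by
      refine le_trans (le_of_eq ?_) h1
      refine Finset.sum_congr rfl fun J _ => ?_
      rw [h0]
      rfl
    refine h2.trans ?_
    rw [Matrix.rank_eq_finrank_span_cols]
    refine Submodule.finrank_mono (Submodule.span_mono ?_)
    rintro v ⟨q, -, rfl⟩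
    exact ⟨q, rfl⟩
  · intro p q hlt
    refine lor_app_eq_zero A r c hA f p q fun hle => ?_
    exact absurd (Pi.toLex_monotone hle) (not_le.2 hlt)
  · intro J p
    funext i
    exact (p i).2
  · intro J q
    funext i
    exact (q i).2

end Pool.Agent.H5.FR2
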