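import Pool.Agent.H5.FR2.Stmts

/-!
# URB, module UPR: upper bound for the rank of a block triangular matrix
-/

set_option autoImplicit false

namespace Pool.Agent.H5.FR2

open Finset Pool.Agent.H5.FR Pool.Agent.H80

/-- entries below the diagonal vanish -/
theorem upr_app_eq_zero {d n : ℕ} {X Y : Fin d → Type}
    (A : ∀ i, Fin n → Matrix (X i) (Y i) ℂ) (r : ∀ i, X i → ℕ) (c : ∀ i, Y i → ℕ)
    (h : ∀ i a p q, c i q < r i p → A i a p q = 0) (f : MvPolynomial (Fin d × Fin n) ℂ)
    (p : ∀ i, X i) (q : ∀ i, Y i) (hpq : ¬ (fun i => r i (p i)) ≤ fun i => c i (q i)) :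
    app A f p q = 0 := by
  rw [Pi.le_def] at hpq
  push Not at hpq
  obtain ⟨i, hi⟩ := hpq
  unfold app
  refine Finset.sum_eq_zero fun a _ => ?_
  rw [Finset.prod_eq_zero (Finset.mem_univ i) (h i (a i) (p i) (q i) hi), mul_zero]

/-- the rank is at most the number of rows which are not zero -/
theorem upr_rank_rows {P Q : Type} [Fintype P] [DecidableEq P] [Fintype Q]
    (M : Matrix P Q ℂ) (s : Finset P) (h : ∀ p, p ∉ s → ∀ q, M p q = 0) : M.rank ≤ s.card := by
  classical
  have h1 : M = Matrix.diagonal (fun p => if p ∈ s then (1 : ℂ) else 0) * M := by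
    ext p q
    rw [Matrix.diagonal_mul]
    by_cases hp : p ∈ s
    · simp [hp]
    · simp [hp, h p hp q]
  rw [h1]
  refine (Matrix.rank_mul_le_left _ _).trans ?_
  rw [Matrix.rank_diagonal, Fintype.card_subtype]
  refine Finset.card_le_card fun p hp => ?_
  rw [Finset.mem_filter] at hp
  by_contra hps
  exact hp.2 (by simp [hps])

/-- the rank is at most the number of columns which are not zero -/
theorem upr_rank_cols {P Q : Type} [Fintype P] [Fintype Q] [DecidableEq Q]
    (M : Matrix P Q ℂ) (s : Finset Q) (h : ∀ q, q ∉ s → ∀ p, M p q = 0) : M.rank ≤ s.card := by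
  classical
  have h1 : M = M * Matrix.diagonal (fun q => if q ∈ s then (1 : ℂ) else 0) := by
    ext p q
    rw [Matrix.mul_diagonal]
    by_cases hq : q ∈ s
    · simp [hq]
    · simp [hq, h q hq p]
  rw [h1]
  refine (Matrix.rank_mul_le_right _ _).trans ?_
  rw [Matrix.rank_diagonal, Fintype.card_subtype]
  refine Finset.card_le_card fun p hp => ?_
  rw [Finset.mem_filter] at hp
  by_contra hps
  exact hp.2 (by simp [hps])

/-- the rank of a sum -/
theorem upr_rank_add {P Q : Type} [Fintype P] [Fintype Q] (M N : Matrix P Q ℂ) :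
    (M + N).rank ≤ M.rank + N.rank := by
  unfold Matrix.rank
  refine le_trans (Submodule.finrank_mono ?_)
    (Submodule.finrank_add_le_finrank_add_finrank _ _)
  rintro _ ⟨v, rfl⟩
  rw [Matrix.mulVecLin_apply, Matrix.add_mulVec]
  exact Submodule.add_mem_sup ⟨v, rfl⟩ ⟨v, rfl⟩

/-- rank of a matrix whose columns with labels in `T` live on the rows in `s` -/
theorem upr_rank {P Q : Type} [Fintype P] [DecidableEq P] [Fintype Q] [DecidableEq Q]
    (M : Matrix P Q ℂ) (s : Finset P) (t : Finset Q) (h : ∀ p, p ∉ s → ∀ q, q ∉ t → M p q = 0) :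
    M.rank ≤ s.card + t.card := by
  classical
  have h1 : M = (Matrix.of fun p q => if q ∈ t then 0 else M p q) +
      Matrix.of fun p q => if q ∈ t then M p q else 0 := by
    ext p q
    by_cases hq : q ∈ t <;> simp [hq]
  rw [h1]
  refine (upr_rank_add _ _).trans (add_le_add ?_ ?_)
  · refine upr_rank_rows _ _ fun p hp q => ?_
    by_cases hq : q ∈ t
    · simp [hq]
    · simp [hq, h p hp q hq]
  · refine upr_rank_cols _ _ fun q hq p => ?_
    simp [hq]

/-- number of tuples with given labels -/
theorem upr_card {d : ℕ} {X : Fin d → Type} [∀ i, Fintype (X i)] [∀ i, DecidableEq (X i)]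
    (r : ∀ i, X i → ℕ) (J : Fin d → ℕ) :
    (univ.filter fun p : ∀ i, X i => (fun i => r i (p i)) = J).card =
      ∏ i, Fintype.card {p // r i p = J i} := by
  have h1 : (univ.filter fun p : ∀ i, X i => (fun i => r i (p i)) = J) =
      Fintype.piFinset fun i => univ.filter fun p : X i => r i p = J i := by
    ext p
    simp [funext_iff]
  rw [h1, Fintype.card_piFinset]
  refine Finset.prod_congr rfl fun i _ => ?_
  rw [Fintype.card_subtype]

/-- number of tuples with labels in a set -/
theorem upr_card_set {d : ℕ} {X : Fin d → Type} [∀ i, Fintype (X i)] [∀ i, DecidableEq (X i)]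
    (r : ∀ i, X i → ℕ) (S : Finset (Fin d → ℕ)) (hS : ∀ p : (∀ i, X i), (fun i => r i (p i)) ∈ S)
    (D : (Fin d → ℕ) → Prop) [DecidablePred D] :
    (univ.filter fun p : ∀ i, X i => D fun i => r i (p i)).card =
      ∑ J ∈ S.filter D, ∏ i, Fintype.card {p // r i p = J i} := by
  rw [Finset.card_eq_sum_card_fiberwise (f := fun p : ∀ i, X i => fun i => r i (p i))
    (t := S.filter D)]
  · refine Finset.sum_congr rfl fun J hJ => ?_
    rw [← upr_card, Finset.filter_filter]
    congr 1
    ext p
    simp only [Finset.mem_filter, Finset.mem_univ, true_and]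
    constructor
    · exact fun h => h.2
    · intro h
      refine ⟨?_, h⟩
      rw [h]
      exact (Finset.mem_filter.1 hJ).2
  · intro p hp
    have hp' := (Finset.mem_filter.1 hp).2
    exact Finset.mem_coe.2 (Finset.mem_filter.2 ⟨hS p, hp'⟩)

/-- The module UPR. -/
theorem upr_thm : UPRStmt := by
  classical
  intro d n X Y _ _ _ _ A r c hA hs f S hp hq
  set x : (Fin d → ℕ) → ℕ := fun J => ∏ i, Fintype.card {p // r i p = J i} with hx
  set y : (Fin d → ℕ) → ℕ := fun J => ∏ i, Fintype.card {q // c i q = J i} with hy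
  set D : (Fin d → ℕ) → Prop := fun J => ∃ J', J ≤ J' ∧ x J' < y J' with hD
  have h1 : (app A f).rank ≤ (univ.filter fun p : ∀ i, X i => D fun i => r i (p i)).card +
      (univ.filter fun q : ∀ i, Y i => ¬ D fun i => c i (q i)).card := by
    refine upr_rank _ _ _ fun p hp' q hq' => ?_
    rw [Finset.mem_filter] at hp' hq'
    push Not at hp' hq'
    refine upr_app_eq_zero A r c hA f p q fun hle => ?_
    obtain ⟨J', hJ', hlt⟩ := hq' (Finset.mem_univ _)
    exact hp' (Finset.mem_univ _) ⟨J', hle.trans hJ', hlt⟩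
  rw [upr_card_set r S hp D, upr_card_set c S hq fun J => ¬ D J] at h1
  refine h1.trans ?_
  rw [← Finset.sum_filter_add_sum_filter_not S D fun J => min (x J) (y J)]
  refine add_le_add (Finset.sum_le_sum fun J hJ => ?_) (Finset.sum_le_sum fun J hJ => ?_)
  · obtain ⟨-, J', hle, hlt⟩ := Finset.mem_filter.1 hJ
    refine le_min le_rfl ?_
    have h2 : x J * y J' ≤ x J' * y J := by
      rw [hx, hy]
      simp only []
      rw [← Finset.prod_mul_distrib, ← Finset.prod_mul_distrib]
      exact Finset.prod_le_prod' fun i _ => hs i (J i) (J' i) (hle i)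
    by_contra hlt'
    rw [not_le] at hlt'
    have h3 : x J' * y J < x J * y J' := by
      calc x J' * y J ≤ x J' * x J := Nat.mul_le_mul_left _ hlt'.le
        _ = x J * x J' := mul_comm _ _
        _ < x J * y J' := Nat.mul_lt_mul_of_pos_left hlt (Nat.lt_of_le_of_lt (Nat.zero_le _) hlt')
    omega
  · obtain ⟨-, hn⟩ := Finset.mem_filter.1 hJ
    refine le_min ?_ le_rfl
    by_contra hlt
    exact hn ⟨J, le_rfl, not_le.1 hlt⟩

end Pool.Agent.H5.FR2
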